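import Pool.Agent.H33R3.Bom.Stmts2

set_option autoImplicit false

namespace Pool.Agent.H827R3.Bom2

open Complex Metric Set Filter Topology Pool.Agent.H33R3.Bom

theorem norm_pow_sub {z : ℂ} {r : ℝ} (hz : ‖z‖ = r) :
    ‖z ^ 4 - (r : ℂ) ^ 4‖ = 4 * r ^ 2 * |z.re * z.im| := by
  have h1 : ((r : ℂ)) ^ 2 = z * (starRingEnd ℂ) z := by
    rw [Complex.mul_conj, Complex.normSq_eq_norm_sq, hz]; push_cast; ring
  have h2 : z ^ 4 - (r : ℂ) ^ 4 = z ^ 2 * (z + (starRingEnd ℂ) z) * (z - (starRingEnd ℂ) z) := by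
    have : (r : ℂ) ^ 4 = (z * (starRingEnd ℂ) z) ^ 2 := by rw [← h1]; ring
    rw [this]; ring
  rw [h2, Complex.add_conj, Complex.sub_conj]
  rw [norm_mul, norm_mul, norm_pow, hz]
  simp only [norm_mul, Complex.norm_real, Complex.norm_I, Real.norm_eq_abs, abs_mul, mul_one]
  norm_num
  ring

theorem im_le (z : ℂ) : |z.im| ≤ ‖1 - z ^ 2‖ := by
  apply abs_le_of_sq_le_sq _ (norm_nonneg _)
  have h1 : ‖1 - z ^ 2‖ ^ 2 = (1 - (z.re ^ 2 - z.im ^ 2)) ^ 2 + (2 * z.re * z.im) ^ 2 := by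
    rw [← Complex.normSq_eq_norm_sq, Complex.normSq_apply]
    simp only [Complex.sub_re, Complex.sub_im, Complex.one_re, Complex.one_im, pow_two,
      Complex.mul_re, Complex.mul_im]
    ring
  rw [h1]
  nlinarith [sq_nonneg (z.re ^ 2 - 1), sq_nonneg (z.im ^ 2), sq_nonneg (z.re * z.im),
    sq_nonneg z.im]

theorem one_sub_le (z : ℂ) : 1 - ‖z‖ ^ 2 ≤ ‖1 - z ^ 2‖ := by
  have h1 := norm_sub_norm_le (1 : ℂ) (z ^ 2)
  rw [norm_one, norm_pow] at h1
  exact h1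

theorem taskG2 : TaskG2 := by
  intro hep hb Y hY z₀ hz₀ hhalf
  have hball : ball (0 : ℂ) 1 ∈ 𝓝 (0 : ℂ) := ball_mem_nhds _ one_pos
  have hhd : DifferentiableOn ℂ (hh Y) (ball 0 1) := by
    have h1 : DifferentiableOn ℂ (dslope Y 0) (ball 0 1) :=
      (Complex.differentiableOn_dslope hball).2 hY.diff
    exact h1.add differentiableOn_id
  have hUd : DifferentiableOn ℂ (UU Y) (ball 0 1) := by
    refine hhd.add ?_
    intro z hz
    have h1 : DifferentiableAt ℂ (hh Y) ((starRingEnd ℂ) z) := by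
      apply (hhd _ _).differentiableAt
      · apply isOpen_ball.mem_nhds
        rw [mem_ball_zero_iff] at hz ⊢
        rwa [Complex.norm_conj]
      · rw [mem_ball_zero_iff] at hz ⊢
        rwa [Complex.norm_conj]
    have h2 := h1.conj_conj
    have h3 : DifferentiableAt ℂ ((starRingEnd ℂ) ∘ (hh Y) ∘ (starRingEnd ℂ)) z := by
      have := h2
      simpa using this
    exact h3.differentiableWithinAt
  have hz₀' : ‖z₀‖ < 1 := by simpa using hz₀
  obtain ⟨r, hr⟩ : ∃ r : ℝ, r = (1 + ‖z₀‖) / 2 := ⟨_, rfl⟩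
  rw [← hr]
  obtain ⟨s, hs⟩ : ∃ s : ℝ, s = ‖z₀‖ := ⟨_, rfl⟩
  rw [← hs] at hr hz₀' hhalf ⊢
  have hr1 : r < 1 := by rw [hr]; linarith
  have hrρ : s < r := by rw [hr]; linarith
  have hr0 : 0 < r := by linarith
  have hep0 := hep Y hY
  have h1r : 0 < 1 - r ^ 2 := by nlinarith
  have hne : ∀ z ∈ ball (0 : ℂ) 1, (1 : ℂ) - z ^ 2 ≠ 0 := by
    intro z hz h0
    have h1 := one_sub_le z
    rw [h0, norm_zero] at h1
    have h2 : ‖z‖ < 1 := by simpa using hz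
    nlinarith [norm_nonneg z]
  have hLa : La r ≤ 1 - Real.log (1 - s) := by
    unfold La
    have h2 : 3 / 4 * (1 - s) ≤ 1 - r ^ 2 := by rw [hr]; nlinarith
    have h3 : Real.log (3 / 4 * (1 - s)) ≤ Real.log (1 - r ^ 2) :=
      Real.log_le_log (by nlinarith) h2
    rw [Real.log_mul (by norm_num) (by linarith)] at h3
    have h4 : -1 ≤ Real.log (3 / 4) := by
      have := Real.one_sub_inv_le_log_of_pos (x := 3 / 4) (by norm_num)
      norm_num at this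
      linarith
    linarith
  have hLa0 : 0 ≤ La r := by
    unfold La
    have : Real.log (1 - r ^ 2) ≤ 0 := Real.log_nonpos h1r.le (by nlinarith)
    linarith
  -- the function
  have hgd : DifferentiableOn ℂ (fun z => UU Y z * (z ^ 4 - (r : ℂ) ^ 4) / (1 - z ^ 2)) (ball 0 1) :=
    (hUd.mul ((differentiableOn_pow 4).sub (differentiableOn_const _))).div
      ((differentiableOn_const _).sub (differentiableOn_pow 2)) hne
  have hcl : DiffContOnCl ℂ (fun z => UU Y z * (z ^ 4 - (r : ℂ) ^ 4) / (1 - z ^ 2)) (ball 0 r) := by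
    apply DifferentiableOn.diffContOnCl
    apply hgd.mono
    rw [closure_ball _ hr0.ne']
    exact closedBall_subset_ball hr1
  have hmax := Complex.norm_le_of_forall_mem_frontier_norm_le (U := ball (0 : ℂ) r)
    isBounded_ball hcl (C := 32 * ep Y * (1 + La r) / (1 - r ^ 2)) (by
      intro z hz
      rw [frontier_ball _ hr0.ne', mem_sphere_zero_iff_norm] at hz
      have hzb : z ∈ ball (0 : ℂ) 1 := by rw [mem_ball_zero_iff, hz]; exact hr1
      have h := hb Y hY z hzb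
      rw [hz] at h
      have hp : 0 < ‖(1 : ℂ) - z ^ 2‖ := norm_pos_iff.2 (hne z hzb)
      rw [norm_div, norm_mul, norm_pow_sub hz, div_le_div_iff₀ hp h1r]
      have h5 : |z.im| + (1 - r ^ 2) ≤ 2 * ‖(1 : ℂ) - z ^ 2‖ := by
        have h6 := im_le z
        have h7 := one_sub_le z
        rw [hz] at h7
        linarith
      have h8 : 4 * ep Y * (1 + La r) * (|z.im| + (1 - r ^ 2)) ≤
          4 * ep Y * (1 + La r) * (2 * ‖(1 : ℂ) - z ^ 2‖) :=
        mul_le_mul_of_nonneg_left h5 (by positivity)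
      have h9 := h.trans h8
      have h10 : 0 ≤ ‖UU Y z‖ * |z.re * z.im| * (1 - r ^ 2) := by positivity
      have h11 : r ^ 2 ≤ 1 := by nlinarith
      have h12 : ‖UU Y z‖ * (4 * r ^ 2 * |z.re * z.im|) * (1 - r ^ 2) =
          4 * (r ^ 2 * (‖UU Y z‖ * |z.re * z.im| * (1 - r ^ 2))) := by ring
      rw [h12]
      have h13 : r ^ 2 * (‖UU Y z‖ * |z.re * z.im| * (1 - r ^ 2)) ≤
          1 * (‖UU Y z‖ * |z.re * z.im| * (1 - r ^ 2)) := mul_le_mul_of_nonneg_right h11 h10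
      nlinarith) (z := z₀) (by
      rw [closure_ball _ hr0.ne', mem_closedBall_zero_iff, ← hs]; exact hrρ.le)
  have hp0 : 0 < ‖(1 : ℂ) - z₀ ^ 2‖ := norm_pos_iff.2 (hne z₀ hz₀)
  have hfac : z₀ ^ 4 - (r : ℂ) ^ 4 = (z₀ ^ 2 - (r : ℂ) ^ 2) * (z₀ ^ 2 + (r : ℂ) ^ 2) := by ring
  rw [norm_div, norm_mul, hfac, norm_mul] at hmax
  have h20 : r ^ 2 - s ^ 2 ≤ ‖z₀ ^ 2 - (r : ℂ) ^ 2‖ := by
    have := norm_sub_norm_le ((r : ℂ) ^ 2) (z₀ ^ 2)
    rw [norm_sub_rev] at this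
    rw [norm_pow, norm_pow, ← hs, Complex.norm_real, Real.norm_eq_abs, abs_of_pos hr0] at this
    exact this
  have h21 : ‖(1 : ℂ) - z₀ ^ 2‖ ≤ 4 * ‖z₀ ^ 2 - (r : ℂ) ^ 2‖ := by
    have h22 : (1 : ℂ) - z₀ ^ 2 = ((1 - r ^ 2 : ℝ) : ℂ) - (z₀ ^ 2 - (r : ℂ) ^ 2) := by
      push_cast; ring
    have h23 : ‖(1 : ℂ) - z₀ ^ 2‖ ≤ (1 - r ^ 2) + ‖z₀ ^ 2 - (r : ℂ) ^ 2‖ := by
      rw [h22]
      refine (norm_sub_le _ _).trans ?_
      rw [Complex.norm_real, Real.norm_eq_abs, abs_of_pos h1r]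
    have h24 : 1 - r ^ 2 ≤ 3 * (r ^ 2 - s ^ 2) := by rw [hr]; nlinarith
    linarith
  rw [div_le_div_iff₀ hp0 h1r] at hmax
  set u := ‖UU Y z₀‖ with hu
  set p := ‖z₀ ^ 2 - (r : ℂ) ^ 2‖ with hpdef
  set q := ‖z₀ ^ 2 + (r : ℂ) ^ 2‖ with hq
  set w := ‖(1 : ℂ) - z₀ ^ 2‖ with hw
  have hu0 : 0 ≤ u := norm_nonneg _
  have hq0 : 0 ≤ q := norm_nonneg _
  have hpp : 0 < p := by nlinarith
  -- u * (p * q) * (1 - r^2) ≤ 32 ep (1 + La r) * w ≤ 128 ep (1 + La r) p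
  have h30 : u * (p * q) * (1 - r ^ 2) ≤ 32 * ep Y * (1 + La r) * (4 * p) :=
    hmax.trans (mul_le_mul_of_nonneg_left h21 (by positivity))
  have h31 : u * q * (1 - r ^ 2) ≤ 128 * ep Y * (1 + La r) := by
    have h32 : p * (u * q * (1 - r ^ 2)) ≤ p * (128 * ep Y * (1 + La r)) := by
      calc p * (u * q * (1 - r ^ 2)) = u * (p * q) * (1 - r ^ 2) := by ring
        _ ≤ _ := h30
        _ = _ := by ring
    exact le_of_mul_le_mul_left h32 hpp
  have h33 : 3 / 4 * (1 - s) ≤ 1 - r ^ 2 := by rw [hr]; nlinarith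
  have h34 : u * q * (3 / 4 * (1 - s)) ≤ 128 * ep Y * (1 + La r) :=
    (mul_le_mul_of_nonneg_left h33 (by positivity)).trans h31
  have h35 : 128 * ep Y * (1 + La r) ≤ 128 * ep Y * (2 - Real.log (1 - s)) :=
    mul_le_mul_of_nonneg_left (by linarith) (by positivity)
  have h36 : 0 ≤ ep Y * (2 - Real.log (1 - s)) := mul_nonneg hep0 (by linarith)
  nlinarith [h34, h35, h36]

end Pool.Agent.H827R3.Bom2
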